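import Pool.Agent.H310.CH.Bridge
import Pool.Agent.H310.CH.CaseTwo

/-!
# Maximality of the Chebyshev hyperelliptic curves `y² = φ_ℓ(x)` (Q1 of MP_a01b15_nt)

`φ_ℓ` is the polynomial with `φ_ℓ(t + 1/t) = t^ℓ + t^(-ℓ)`, i.e. Mathlib's Dickson polynomial
`Polynomial.dickson 1 1 ℓ`. For `ℓ ≡ p ≡ 1 (mod 4)` distinct primes, if the curve
`H_ℓ : y² = φ_ℓ(x)` is maximal over a field `F` with `p ^ (2 f)` elements, then `p` is a
primitive root modulo `ℓ`.
-/

namespace Pool.Agent.Results.MP_a01b15_nt.PrimitiveRoot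

open Finset Pool.Agent.H310.CH

/-- The number of rational points over the finite field `F` of the smooth projective model of
`y² = φ_ℓ(x)` (`ℓ` odd, nonzero in `F`, `F` of odd characteristic): the affine points and one
point at infinity. -/
noncomputable def numPoints (ℓ : ℕ) (F : Type) [Field F] : ℕ :=
  Nat.card {P : F × F // P.2 ^ 2 = (Polynomial.dickson 1 (1 : F) ℓ).eval P.1} + 1

/-- `H_ℓ` (of genus `(ℓ - 1) / 2`) is maximal in characteristic `p`: over some field with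
`p ^ (2 f)` elements, `f ≥ 1`, its number of points is `p ^ (2 f) + 1 + (ℓ - 1) * p ^ f`. -/
def IsMaximalInChar (ℓ p : ℕ) : Prop :=
  ∃ (f : ℕ) (F : Type) (_ : Field F), 1 ≤ f ∧ Nat.card F = p ^ (2 * f) ∧
    numPoints ℓ F = p ^ (2 * f) + 1 + (ℓ - 1) * p ^ f

section

variable {F E : Type} [Field F] [Fintype F] [DecidableEq F] [Field E] [Fintype E] [DecidableEq E]
  [Algebra F E] {Q : ℕ}

lemma card_affine (hF : ringChar F ≠ 2) (g : F → F) :
    (Nat.card {P : F × F // P.2 ^ 2 = g P.1} : ℂ) = Fintype.card F + ∑ x, qc F (g x) := by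
  classical
  have h1 : Nat.card {P : F × F // P.2 ^ 2 = g P.1} =
      ∑ x : F, (univ.filter (fun y : F => y ^ 2 = g x)).card := by
    rw [Nat.card_eq_fintype_card, Fintype.card_subtype, card_filter, ← univ_product_univ,
      sum_product]
    refine sum_congr rfl fun x _ => ?_
    rw [card_filter]
  have h2 : ∀ u : F, (((univ.filter (fun y : F => y ^ 2 = u)).card : ℕ) : ℂ) = 1 + qc F u := by
    intro u
    have h1 := quadraticChar_card_sqrts hF u
    have h2 : ({x : F | x ^ 2 = u} : Set F).toFinset = univ.filter (fun t : F => t ^ 2 = u) := by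
      ext x; simp
    rw [h2] at h1
    have h3 : (((univ.filter (fun t : F => t ^ 2 = u)).card : ℤ) : ℂ) = 1 + qc F u := by
      rw [h1, qc_apply]; push_cast; ring
    rw [← h3, Int.cast_natCast]
  rw [h1, Nat.cast_sum, sum_congr rfl fun x _ => h2 (g x), sum_add_distrib]
  simp

/-- the Dickson polynomial at `t + 1 / t` -/
lemma dickson_RR (hQ : Fintype.card F = Q) (ℓ : ℕ) {t : Eˣ} (ht : t ∈ T1 E Q ∨ t ∈ T2 E Q) :
    (Polynomial.dickson 1 (1 : F) ℓ).eval (RR F E ((t : E) + (t⁻¹ : Eˣ))) =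
      RR F E (((t ^ ℓ : Eˣ) : E) + (((t ^ ℓ)⁻¹ : Eˣ) : E)) := by
  obtain ⟨x, hx⟩ := mem_of_T hQ ht
  rw [← hx, RR_alg]
  have h1 : algebraMap F E ((Polynomial.dickson 1 (1 : F) ℓ).eval x) =
      ((t ^ ℓ : Eˣ) : E) + (((t ^ ℓ)⁻¹ : Eˣ) : E) := by
    have h2 : algebraMap F E ((Polynomial.dickson 1 (1 : F) ℓ).eval x) =
        (Polynomial.dickson 1 (1 : E) ℓ).eval (algebraMap F E x) := by
      rw [← Polynomial.eval_map_apply, Polynomial.map_dickson, map_one]
    rw [h2, hx, Polynomial.dickson_one_one_eval_add_inv _ _ (by simp) ℓ]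
    rw [← inv_pow, Units.val_pow_eq_pow_val, Units.val_pow_eq_pow_val]
  rw [← h1, RR_alg]

lemma key_sum (hQ : Fintype.card F = Q) (hE : Fintype.card E = Q ^ 2) (hodd : Q % 2 = 1)
    (ℓ : ℕ) : 2 * ∑ x : F, qc F ((Polynomial.dickson 1 (1 : F) ℓ).eval x) =
      ∑ t ∈ T1 E Q, HH F (t ^ ℓ) + ∑ t ∈ T2 E Q, HH F (t ^ ℓ) := by
  rw [two_mul_sum (E := E) hQ hE hodd (fun x => qc F ((Polynomial.dickson 1 (1 : F) ℓ).eval x))]
  congr 1
  · refine sum_congr rfl fun t ht => ?_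
    rw [dickson_RR hQ ℓ (Or.inl ht)]
    rfl
  · refine sum_congr rfl fun t ht => ?_
    rw [dickson_RR hQ ℓ (Or.inr ht)]
    rfl

lemma key_zero (hQ : Fintype.card F = Q) (hE : Fintype.card E = Q ^ 2) (hodd : Q % 2 = 1) :
    ∑ t ∈ T1 E Q, HH F t + ∑ t ∈ T2 E Q, HH F t = 0 := by
  have h1 := two_mul_sum (E := E) hQ hE hodd (fun x => qc F x)
  rw [MulChar.sum_eq_zero_of_ne_one (qc_ne_one (hF2 hQ hodd)), mul_zero] at h1
  exact h1.symm

end

/-- If the Chebyshev hyperelliptic curve `H_ℓ` is maximal in characteristic `p`, where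
`ℓ ≡ p ≡ 1 (mod 4)` are distinct primes, then `p` is a primitive root modulo `ℓ`. -/
theorem result (ℓ p : ℕ) (hℓ : ℓ.Prime) (hp : p.Prime) (hne : ℓ ≠ p) (hℓ4 : ℓ % 4 = 1)
    (hp4 : p % 4 = 1) (hmax : IsMaximalInChar ℓ p) : orderOf (p : ZMod ℓ) = ℓ - 1 := by
  classical
  obtain ⟨f, F, _, hf, hcard, hpts⟩ := hmax
  have : Fact ℓ.Prime := ⟨hℓ⟩
  have : Fact p.Prime := ⟨hp⟩
  have hp2 := hp.two_le
  have hℓ2 := hℓ.two_le
  have hfin : Finite F := by
    apply Nat.finite_of_card_ne_zero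
    rw [hcard]; positivity
  have : Fintype F := Fintype.ofFinite F
  rw [Nat.card_eq_fintype_card] at hcard
  set q := p ^ f with hq
  have hq2 : p ^ (2 * f) = q ^ 2 := by rw [hq, ← pow_mul, mul_comm]
  rw [hq2] at hcard hpts
  set Q := q ^ 2 with hQdef
  have hq4 : q % 4 = 1 := by
    rw [hq, Nat.pow_mod, hp4, one_pow]; norm_num
  have hQ4 : Q % 4 = 1 := by
    rw [hQdef, Nat.pow_mod, hq4, one_pow]; norm_num
  have hqp : 1 < q := by rw [hq]; exact Nat.one_lt_pow (by omega) hp.one_lt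
  have hQ5 : 5 ≤ Q := by
    have h5 : 5 ≤ q := by omega
    rw [hQdef]; nlinarith
  have hodd : Q % 2 = 1 := by omega
  have hcharF : CharP F p := charP_of_card_eq_prime_pow (f := 2 * f) (by rw [hcard, ← hq2])
  let _ : Algebra (ZMod p) F := ZMod.algebra F p
  let E : Type := FiniteField.Extension F p 2
  let _ : Field E := inferInstanceAs (Field (FiniteField.Extension F p 2))
  let _ : Algebra F E := inferInstanceAs (Algebra F (FiniteField.Extension F p 2))
  let _ : Algebra (ZMod p) E := inferInstanceAs (Algebra (ZMod p) (FiniteField.Extension F p 2))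
  have _ : IsScalarTower (ZMod p) F E :=
    inferInstanceAs (IsScalarTower (ZMod p) F (FiniteField.Extension F p 2))
  have _ : Finite E := inferInstanceAs (Finite (FiniteField.Extension F p 2))
  have _ : Fintype E := Fintype.ofFinite E
  have hE : Fintype.card E = Q ^ 2 := by
    have h1 := FiniteField.natCard_extension F p 2
    rw [Nat.card_eq_fintype_card (α := F), hcard] at h1
    rw [← h1, ← Nat.card_eq_fintype_card]
  have hF := hF2 hcard hodd
  -- the character sum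
  set S : ℂ := ∑ x : F, qc F ((Polynomial.dickson 1 (1 : F) ℓ).eval x) with hS
  have hSval : S = ((ℓ - 1 : ℕ) : ℂ) * (q : ℂ) := by
    have h1 := card_affine hF (fun x => (Polynomial.dickson 1 (1 : F) ℓ).eval x)
    rw [← hS, hcard] at h1
    have h2 : Nat.card {P : F × F // P.2 ^ 2 = (Polynomial.dickson 1 (1 : F) ℓ).eval P.1} =
        Q + (ℓ - 1) * q := by
      unfold numPoints at hpts
      omega
    rw [h2] at h1
    push_cast at h1
    have h3 : (Q : ℂ) + ((ℓ - 1 : ℕ) : ℂ) * q = Q + S := h1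
    linear_combination -h3
  have hS0 : S ≠ 0 := by
    rw [hSval]
    apply mul_ne_zero
    · exact Nat.cast_ne_zero.mpr (by omega)
    · exact Nat.cast_ne_zero.mpr (by omega)
  have hk := key_sum (E := E) hcard hE hodd ℓ
  have hk0 := key_zero (E := E) hcard hE hodd
  rw [← hS] at hk
  have hℓodd : ℓ % 2 = 1 := by omega
  by_cases h1 : ℓ ∣ Q - 1
  · -- split case
    have hcop : Nat.Coprime ℓ (Q + 1) := by
      rw [Nat.Prime.coprime_iff_not_dvd hℓ]
      intro h2
      have h3 : ℓ ∣ (Q + 1) - (Q - 1) := Nat.dvd_sub h2 h1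
      rw [show Q + 1 - (Q - 1) = 2 by omega] at h3
      have := Nat.le_of_dvd (by norm_num) h3
      omega
    have h2 : ∑ t ∈ T2 E Q, HH F (t ^ ℓ) = ∑ t ∈ T2 E Q, HH F t :=
      sum_coprime hcop (by omega) (HH F)
    have h3 : ∑ t ∈ T1 E Q, HH F (t ^ ℓ) - ∑ t ∈ T1 E Q, HH F t =
        ((ℓ - 1 : ℕ) : ℂ) * (2 * (q : ℂ)) := by
      rw [h2] at hk
      rw [hSval] at hk
      linear_combination -hk - hk0
    rw [sum_T1 hcard, sum_T1 hcard] at h3
    have h4 : ∀ u : Fˣ, HH F (Units.map (algebraMap F E).toMonoidHom u) =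
        qc F ((u : F) + ((u⁻¹ : Fˣ) : F)) := by
      intro u
      unfold HH
      congr 1
      have h5 : ((Units.map (algebraMap F E).toMonoidHom u : Eˣ) : E) +
          (((Units.map (algebraMap F E).toMonoidHom u)⁻¹ : Eˣ) : E) =
          algebraMap F E ((u : F) + ((u⁻¹ : Fˣ) : F)) := by
        rw [← map_inv, map_add]; rfl
      rw [h5, RR_alg]
    have h5 : ∀ u : Fˣ, HH F ((Units.map (algebraMap F E).toMonoidHom u) ^ ℓ) =
        qc F ((((u ^ ℓ : Fˣ)) : F) + (((u ^ ℓ)⁻¹ : Fˣ) : F)) := by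
      intro u
      rw [← map_pow, h4]
    rw [sum_congr rfl fun u _ => h4 u, sum_congr rfl fun u _ => h5 u] at h3
    refine primitive_of_gauss (L := F) hℓ4 hp4 hne ?_ (fun ζ hζ Ψ hΨ =>
      case_one hF hℓ hℓ4 hcard h3 ζ hζ Ψ hΨ)
    rw [hcard]
    apply Nat.Coprime.mul_dvd_of_dvd_of_dvd _ (by omega) h1
    have : Nat.Coprime 2 ℓ := (Nat.coprime_two_left).mpr (Nat.odd_iff.mpr hℓodd)
    exact Nat.Coprime.pow_left 2 this
  · have hcop1 : Nat.Coprime ℓ (Q - 1) := (Nat.Prime.coprime_iff_not_dvd hℓ).mpr h1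
    have h2 : ∑ t ∈ T1 E Q, HH F (t ^ ℓ) = ∑ t ∈ T1 E Q, HH F t :=
      sum_coprime hcop1 (by omega) (HH F)
    by_cases h3 : ℓ ∣ Q + 1
    · -- nonsplit case
      have h4 : ∑ t ∈ T2 E Q, HH F (t ^ ℓ) - ∑ t ∈ T2 E Q, HH F t =
          ((ℓ - 1 : ℕ) : ℂ) * (2 * (q : ℂ)) := by
        rw [h2, hSval] at hk
        linear_combination -hk - hk0
      refine primitive_of_gauss (L := E) hℓ4 hp4 hne ?_ (fun ζ hζ Ψ hΨ =>
        case_two hcard hE hodd hℓ hℓ4 hQdef h4 ζ hζ Ψ hΨ)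
      have h5 : Fintype.card E - 1 = (Q - 1) * (Q + 1) := by
        rw [hE]
        obtain ⟨c, hc⟩ : ∃ c, Q = c + 1 := ⟨Q - 1, by omega⟩
        rw [hc, Nat.add_sub_cancel]
        have : (c + 1) ^ 2 = c * (c + 1 + 1) + 1 := by ring
        rw [this]; omega
      rw [h5]
      exact Nat.mul_dvd_mul (by omega) h3
    · -- `ℓ` does not divide `Q ^ 2 - 1`
      exfalso
      have hcop2 : Nat.Coprime ℓ (Q + 1) := (Nat.Prime.coprime_iff_not_dvd hℓ).mpr h3
      have h4 : ∑ t ∈ T2 E Q, HH F (t ^ ℓ) = ∑ t ∈ T2 E Q, HH F t :=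
        sum_coprime hcop2 (by omega) (HH F)
      rw [h2, h4, hk0] at hk
      exact hS0 ((mul_eq_zero.mp hk).resolve_left two_ne_zero)

end Pool.Agent.Results.MP_a01b15_nt.PrimitiveRoot
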